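import Pool.Agent.helper89.PU.Spec1

/-!
# Row CPT of project PU (MP_2e0e07_nt): compactness
-/

set_option autoImplicit false

namespace Pool.Agent.PV

open Matrix Polynomial Pool.Agent.GO Pool.Agent.AR Pool.Agent.RG Pool.Agent.HZ Pool.Agent.DS
  Pool.Agent.AX Pool.Agent.UM Pool.Agent.PU MeasureTheory NumberField

theorem CPT_dvd_iff {p : ℕ} [Fact p.Prime] (x : ℤ_[p]) (r : ℕ) :
    (p : ℤ_[p]) ^ r ∣ x ↔ ‖x‖ ≤ (p : ℝ) ^ (-(r : ℤ)) := by
  rw [PadicInt.norm_le_pow_iff_mem_span_pow, Ideal.mem_span_singleton]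

theorem CPT_closed_dvd {p : ℕ} [Fact p.Prime] (r : ℕ) :
    IsClosed {x : ℤ_[p] | (p : ℤ_[p]) ^ r ∣ x} := by
  have h : {x : ℤ_[p] | (p : ℤ_[p]) ^ r ∣ x} = {x : ℤ_[p] | ‖x‖ ≤ (p : ℝ) ^ (-(r : ℤ))} :=
    Set.ext fun x => CPT_dvd_iff x r
  rw [h]
  exact isClosed_le continuous_norm continuous_const

theorem CPT_eq_zero {p : ℕ} [Fact p.Prime] (x : ℤ_[p]) (h : ∀ r : ℕ, (p : ℤ_[p]) ^ r ∣ x) :
    x = 0 := by
  by_contra hx
  have h1 := (PadicInt.norm_le_pow_iff_le_valuation x hx (x.valuation + 1)).1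
    ((CPT_dvd_iff x _).1 (h _))
  omega

theorem CPT_closed {p : ℕ} [Fact p.Prime] {Γ m : Type} [Group Γ] [TopologicalSpace Γ]
    [Fintype m] [DecidableEq m] (V : Γ →* Matrix m m ℤ_[p]) (hV : Continuous V)
    (G₁ : Subgroup Γ) (hG : IsClosed (G₁ : Set Γ)) (r : ℕ) : IsClosed (Lv V G₁ r) := by
  have h : Lv V G₁ r = (G₁ : Set Γ) ∩
      ⋂ i, ⋂ j, (fun h => (V h - 1) i j) ⁻¹' {x : ℤ_[p] | (p : ℤ_[p]) ^ r ∣ x} := by
    ext h
    simp only [Lv, Set.mem_inter_iff, Set.mem_iInter, Set.mem_preimage]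
    exact Iff.rfl
  rw [h]
  refine hG.inter (isClosed_iInter fun i => isClosed_iInter fun j => ?_)
  refine (CPT_closed_dvd r).preimage ?_
  exact (hV.sub continuous_const).matrix_elem i j

theorem CPT_one_mem {p : ℕ} [Fact p.Prime] {Γ m : Type} [Group Γ]
    [Fintype m] [DecidableEq m] (V : Γ →* Matrix m m ℤ_[p])
    (G₁ : Subgroup Γ) (r : ℕ) : (1 : Γ) ∈ Lv V G₁ r := by
  refine ⟨G₁.one_mem, fun i j => ?_⟩
  rw [map_one, sub_self]
  exact dvd_zero _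

theorem CPT_anti {p : ℕ} [Fact p.Prime] {Γ m : Type} [Group Γ]
    [Fintype m] [DecidableEq m] (V : Γ →* Matrix m m ℤ_[p])
    (G₁ : Subgroup Γ) (r : ℕ) : Lv V G₁ (r + 1) ⊆ Lv V G₁ r :=
  fun _ hh => ⟨hh.1, fun i j => (pow_dvd_pow _ (Nat.le_succ r)).trans (hh.2 i j)⟩

theorem CPT : CPT_stmt := by
  intro p _ Γ K _ _ _ _ _ _ R G₁ κ hL m _ _ V hV
  haveI := ultra p K
  have hc : Continuous fun g => nu (R g) := continuous_nu hL.cont
  have hcl := CPT_closed V hV G₁ hL.closed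
  refine ⟨fun r => ?_, fun b hb => ?_⟩
  · obtain ⟨h, hh, hmax⟩ := (hcl r).isCompact.exists_isMaxOn ⟨1, CPT_one_mem V G₁ r⟩
      hc.continuousOn
    exact ⟨h, hh, fun h' hh' => hmax hh'⟩
  · have hb' : IsClosed {h : Γ | b ≤ nu (R h)} := isClosed_le continuous_const hc
    have key := IsCompact.nonempty_iInter_of_sequence_nonempty_isCompact_isClosed
      (fun r => Lv V G₁ r ∩ {h : Γ | b ≤ nu (R h)})
      (fun r => Set.inter_subset_inter_left _ (CPT_anti V G₁ r))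
      (fun r => by
        obtain ⟨h, hh, hbh⟩ := hb r
        exact ⟨h, hh, hbh⟩)
      ((hcl 0).inter hb').isCompact
      (fun r => (hcl r).inter hb')
    obtain ⟨h, hh⟩ := key
    rw [Set.mem_iInter] at hh
    refine ⟨h, (hh 0).1.1, ?_, (hh 0).2⟩
    ext i j
    have h1 : (V h - 1) i j = 0 := CPT_eq_zero _ fun r => (hh r).1.2 i j
    rw [Matrix.sub_apply] at h1
    exact sub_eq_zero.1 h1

end Pool.Agent.PV
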